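import Pool.Agent.Y569.GL.Main

/-!
# Baire measurable versus Borel solutions of local problems on the shift graph of `ℤ^d`

For every `d ≥ 2` there is a locally checkable labelling problem for unlabelled graphs that has a
Baire measurable solution on the shift graph of `ℤ^d`, but no Borel solution, and not even a
measurable solution.

A label consists of a colour of the vertex, the colours of its neighbours in the directions
`± e_i`, and a label of a planar problem. The colours encode coordinates up to a signed permutation
of the coordinates which is constant on every component. On the orbits of a free rotation action on
the circle, coded in the free part, this signed permutation is constant almost everywhere by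
ergodicity, and the planar problem has no measurable solution for such an action.
-/

set_option autoImplicit false

namespace Pool.Agent.Results.MP_eb515b_lc.BaireNotBorelGraph

open Pool.Agent.Y569.GL

/-- For every `d ≥ 2` there is a locally checkable labelling problem with a Baire measurable
solution on the shift graph of `ℤ^d`, but without a measurable solution and without a Borel
solution. -/
theorem result (d : ℕ) (hd : 2 ≤ d) :
    ∃ L : LCL, HasBaireSol d L ∧ ¬ HasMeasurableSol d L ∧ ¬ HasBorelSol d L :=
  main d hd

end Pool.Agent.Results.MP_eb515b_lc.BaireNotBorelGraph
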